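import Pool.Agent.H622R2.MatGraph

/-!
# Comparability digraphs: the digraph of a list of non-betweenness constraints
-/

set_option autoImplicit false

namespace Pool.Agent.X248.CD

open Pool.Agent.H622R2

/-- `lt` is a comparability ordering of the digraph with the arcs `A`. -/
def IsCompOrdering {V : Type} (A : V → V → Prop) (lt : V → V → Prop) : Prop :=
  ∀ x y z, lt x y → lt y z → (A x y → A y z → A x z) ∧ (A z y → A y x → A z x)

/-- The digraph with the arcs `A` has a comparability ordering, which is a linear order. -/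
def IsCompDigraph {V : Type} (A : V → V → Prop) : Prop :=
  ∃ lt : V → V → Prop, IsStrictTotalOrder V lt ∧ IsCompOrdering A lt

/-- The arcs of the digraph with a given adjacency matrix. -/
def arc (M : List (List Bool)) (i j : Fin M.length) : Prop := i ≠ j ∧ entry M i j = true

/-- `y` is between `x` and `z`. -/
def Btw {V : Type} (lt : V → V → Prop) (x y z : V) : Prop := (lt x y ∧ lt y z) ∨ (lt z y ∧ lt y x)

/-- Comparability orderings in terms of betweenness. -/
theorem compOrdering_iff {V : Type} {A lt : V → V → Prop} : IsCompOrdering A lt ↔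
    ∀ a b c, A a b → A b c → ¬ A a c → ¬ Btw lt a b c := by
  constructor
  · rintro h a b c hab hbc hac (⟨h1, h2⟩ | ⟨h1, h2⟩)
    · exact hac ((h a b c h1 h2).1 hab hbc)
    · exact hac ((h c b a h1 h2).2 hab hbc)
  · intro h x y z hxy hyz
    constructor
    · intro h1 h2
      by_contra h3
      exact h x y z h1 h2 h3 (Or.inl ⟨hxy, hyz⟩)
    · intro h1 h2
      by_contra h3
      exact h z y x h1 h2 h3 (Or.inr ⟨hxy, hyz⟩)

theorem isCompDigraph_of_equiv {V W : Type} {A : V → V → Prop} {B : W → W → Prop} (e : V ≃ W)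
    (h : ∀ u v, A u v ↔ B (e u) (e v)) (hA : IsCompDigraph A) : IsCompDigraph B := by
  obtain ⟨lt, hlt, hc⟩ := hA
  refine ⟨fun x y => lt (e.symm x) (e.symm y), ?_, ?_⟩
  · exact { trichotomous := fun x y h1 h2 => e.symm.injective (hlt.trichotomous _ _ h1 h2)
            irrefl := fun x => hlt.irrefl _
            trans := fun x y z => hlt.trans _ _ _ }
  · rw [compOrdering_iff] at hc ⊢
    intro a b c hab hbc hac hbt
    refine hc (e.symm a) (e.symm b) (e.symm c) ?_ ?_ ?_ hbt
    · rw [h]; simpa using hab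
    · rw [h]; simpa using hbc
    · rw [h]; simpa using hac

section Gadget

/-- The elements to be ordered. -/
abbrev U := ℕ × ℕ

/-- The labels: the elements, and the copies of the components of the constraints. -/
abbrev Lab := U ⊕ (ℕ × ℕ)

/-- The `j`-th component of the `t`-th constraint. -/
def comp (T : List (U × U × U)) (t j : ℕ) : U :=
  if j = 0 then (T.getD t ((0, 0), (0, 0), (0, 0))).1
  else if j = 1 then (T.getD t ((0, 0), (0, 0), (0, 0))).2.1
  else (T.getD t ((0, 0), (0, 0), (0, 0))).2.2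

/-- The arcs. -/
def arcL (T : List (U × U × U)) : Lab → Lab → Bool
  | Sum.inl x, Sum.inl y => !decide (x = y)
  | Sum.inl x, Sum.inr q => !decide (x = comp T q.1 q.2)
  | Sum.inr _, Sum.inl _ => false
  | Sum.inr p, Sum.inr q => decide (p.1 = q.1) && decide (q.2 = p.2 + 1)

/-- The labels of the vertices. -/
def labs (us : List U) (T : List (U × U × U)) : List Lab :=
  us.map Sum.inl ++ (List.range T.length).flatMap fun t =>
    [(Sum.inr (t, 0) : Lab), Sum.inr (t, 1), Sum.inr (t, 2)]

variable {us : List U} {T : List (U × U × U)}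

theorem mem_labs_inl {x : U} : (Sum.inl x : Lab) ∈ labs us T ↔ x ∈ us := by
  simp [labs]

theorem mem_labs_inr {t j : ℕ} : (Sum.inr (t, j) : Lab) ∈ labs us T ↔ t < T.length ∧ j < 3 := by
  simp only [labs, List.mem_append, List.mem_map, reduceCtorEq, and_false, exists_false,
    List.mem_flatMap, List.mem_range, List.mem_cons, Sum.inr.injEq, Prod.mk.injEq,
    List.not_mem_nil, or_false, false_or]
  constructor
  · rintro ⟨a, ha, ⟨rfl, rfl⟩ | ⟨rfl, rfl⟩ | ⟨rfl, rfl⟩⟩ <;> exact ⟨ha, by omega⟩
  · rintro ⟨h1, h2⟩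
    exact ⟨t, h1, by omega⟩

theorem labs_nodup (hus : us.Nodup) : (labs us T).Nodup := by
  unfold labs
  rw [List.nodup_append]
  refine ⟨hus.map Sum.inl_injective, ?_, ?_⟩
  · rw [List.nodup_flatMap]
    refine ⟨fun t _ => by simp, ?_⟩
    refine (List.nodup_range (n := T.length)).imp ?_
    intro a b hab x hx hy
    simp only [List.mem_cons, List.not_mem_nil, or_false] at hx hy
    rcases hx with h | h | h <;> subst h <;> simp [hab] at hy
  · intro x hx y hy hxy
    subst hxy
    simp only [List.mem_map, List.mem_flatMap, List.mem_cons, List.not_mem_nil, or_false] at hx hy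
    obtain ⟨e, _, rfl⟩ := hx
    obtain ⟨t, _, h⟩ := hy
    simp at h

/-- The arcs between the labels in the list. -/
def arcV (us : List U) (T : List (U × U × U)) (u v : {x // x ∈ labs us T}) : Prop :=
  arcL T u.1 v.1 = true

/-- The constraints have distinct components, which are elements. -/
def Ok (us : List U) (T : List (U × U × U)) : Prop :=
  ∀ t ∈ T, (t.1 ∈ us ∧ t.2.1 ∈ us ∧ t.2.2 ∈ us) ∧ t.1 ≠ t.2.1 ∧ t.1 ≠ t.2.2 ∧ t.2.1 ≠ t.2.2

theorem comp_get {t : ℕ} (ht : t < T.length) : comp T t 0 = T[t].1 ∧ comp T t 1 = T[t].2.1 ∧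
    comp T t 2 = T[t].2.2 := by
  unfold comp
  rw [List.getD_eq_getElem _ _ ht]
  simp

/-- In a comparability ordering, the constraints hold. -/
theorem nb_of_ordering (hT : Ok us T) {lt : {x // x ∈ labs us T} → {x // x ∈ labs us T} → Prop}
    (hlt : IsStrictTotalOrder _ lt) (hc : IsCompOrdering (arcV us T) lt) {t : ℕ}
    (ht : t < T.length) (h0 : (Sum.inl T[t].1 : Lab) ∈ labs us T)
    (h1 : (Sum.inl T[t].2.1 : Lab) ∈ labs us T) (h2 : (Sum.inl T[t].2.2 : Lab) ∈ labs us T) :
    ¬ Btw lt ⟨_, h0⟩ ⟨_, h1⟩ ⟨_, h2⟩ := by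
  rw [compOrdering_iff] at hc
  obtain ⟨-, d01, d02, d12⟩ := hT _ (List.getElem_mem ht)
  obtain ⟨c0, c1, c2⟩ := comp_get (T := T) ht
  have m0 : (Sum.inr (t, 0) : Lab) ∈ labs us T := mem_labs_inr.2 ⟨ht, by omega⟩
  have m1 : (Sum.inr (t, 1) : Lab) ∈ labs us T := mem_labs_inr.2 ⟨ht, by omega⟩
  have m2 : (Sum.inr (t, 2) : Lab) ∈ labs us T := mem_labs_inr.2 ⟨ht, by omega⟩
  -- the vertices
  obtain ⟨a, ha⟩ : ∃ a : {x // x ∈ labs us T}, a = ⟨Sum.inl T[t].1, h0⟩ := ⟨_, rfl⟩
  obtain ⟨b, hb⟩ : ∃ b : {x // x ∈ labs us T}, b = ⟨Sum.inl T[t].2.1, h1⟩ := ⟨_, rfl⟩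
  obtain ⟨c, hc'⟩ : ∃ c : {x // x ∈ labs us T}, c = ⟨Sum.inl T[t].2.2, h2⟩ := ⟨_, rfl⟩
  obtain ⟨a', ha'⟩ : ∃ a : {x // x ∈ labs us T}, a = ⟨Sum.inr (t, 0), m0⟩ := ⟨_, rfl⟩
  obtain ⟨b', hb'⟩ : ∃ b : {x // x ∈ labs us T}, b = ⟨Sum.inr (t, 1), m1⟩ := ⟨_, rfl⟩
  obtain ⟨c'', hc''⟩ : ∃ c : {x // x ∈ labs us T}, c = ⟨Sum.inr (t, 2), m2⟩ := ⟨_, rfl⟩
  rw [← ha, ← hb, ← hc']
  -- the arcs
  have A_ab : arcV us T a b := by rw [ha, hb]; simp [arcV, arcL, d01]
  have A_ba : arcV us T b a := by rw [ha, hb]; simp [arcV, arcL, d01.symm]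
  have A_bc : arcV us T b c := by rw [hb, hc']; simp [arcV, arcL, d12]
  have A_cb : arcV us T c b := by rw [hb, hc']; simp [arcV, arcL, d12.symm]
  have A_ab' : arcV us T a b' := by rw [ha, hb']; simp [arcV, arcL, c1, d01]
  have A_ba' : arcV us T b a' := by rw [hb, ha']; simp [arcV, arcL, c0, d01.symm]
  have A_bc'' : arcV us T b c'' := by rw [hb, hc'']; simp [arcV, arcL, c2, d12]
  have A_cb' : arcV us T c b' := by rw [hc', hb']; simp [arcV, arcL, c1, d12.symm]
  have A_a'b' : arcV us T a' b' := by rw [ha', hb']; simp [arcV, arcL]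
  have A_b'c'' : arcV us T b' c'' := by rw [hb', hc'']; simp [arcV, arcL]
  have N_aa' : ¬ arcV us T a a' := by rw [ha, ha']; simp [arcV, arcL, c0]
  have N_bb' : ¬ arcV us T b b' := by rw [hb, hb']; simp [arcV, arcL, c1]
  have N_cc'' : ¬ arcV us T c c'' := by rw [hc', hc'']; simp [arcV, arcL, c2]
  have N_a'c'' : ¬ arcV us T a' c'' := by rw [ha', hc'']; simp [arcV, arcL]
  -- the constraints
  have k1 := hc a b a' A_ab A_ba' N_aa'
  have k2 := hc b a b' A_ba A_ab' N_bb'
  have k3 := hc b a' b' A_ba' A_a'b' N_bb'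
  have k4 := hc b c b' A_bc A_cb' N_bb'
  have k5 := hc c b c'' A_cb A_bc'' N_cc''
  have k6 := hc c b' c'' A_cb' A_b'c'' N_cc''
  have k7 := hc a' b' c'' A_a'b' A_b'c'' N_a'c''
  have tri : ∀ x y : {x // x ∈ labs us T}, x ≠ y → lt x y ∨ lt y x := by
    intro x y hxy
    by_contra hcon
    push Not at hcon
    exact hxy (hlt.trichotomous _ _ hcon.1 hcon.2)
  have tr := hlt.trans
  have ir := hlt.irrefl
  -- distinct vertices
  have n1 : a' ≠ b' := by rw [ha', hb']; simp
  have n2 : b' ≠ c'' := by rw [hb', hc'']; simp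
  have n3 : a' ≠ b := by rw [ha', hb]; simp
  have n4 : a ≠ b' := by rw [ha, hb']; simp
  have n5 : b ≠ c'' := by rw [hb, hc'']; simp
  have n6 : c ≠ b' := by rw [hc', hb']; simp
  unfold Btw at k1 k2 k3 k4 k5 k6 k7 ⊢
  rintro (⟨hab, hbc⟩ | ⟨hcb, hba⟩)
  · -- `a < b < c`
    have e1 : lt a' b := by
      rcases tri a' b n3 with h | h
      · exact h
      · exact absurd (Or.inl ⟨hab, h⟩) k1
    have e2 : lt a b' := by
      rcases tri a b' n4 with h | h
      · exact h
      · exact absurd (Or.inr ⟨h, hab⟩) k2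
    have e3 : lt a' b' := by
      rcases tri a' b' n1 with h | h
      · exact h
      · exact absurd (Or.inr ⟨h, e1⟩) k3
    have e4 : lt b' c := by
      rcases tri c b' n6 with h | h
      · exact absurd (Or.inl ⟨hbc, h⟩) k4
      · exact h
    have e5 : lt b c'' := by
      rcases tri b c'' n5 with h | h
      · exact h
      · exact absurd (Or.inr ⟨h, hbc⟩) k5
    have e6 : lt b' c'' := by
      rcases tri b' c'' n2 with h | h
      · exact h
      · exact absurd (Or.inr ⟨h, e4⟩) k6
    exact k7 (Or.inl ⟨e3, e6⟩)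
  · -- `c < b < a`
    have e1 : lt b a' := by
      rcases tri a' b n3 with h | h
      · exact absurd (Or.inr ⟨h, hba⟩) k1
      · exact h
    have e3 : lt b' a' := by
      rcases tri a' b' n1 with h | h
      · exact absurd (Or.inl ⟨e1, h⟩) k3
      · exact h
    have e4 : lt c b' := by
      rcases tri c b' n6 with h | h
      · exact h
      · exact absurd (Or.inr ⟨h, hcb⟩) k4
    have e6 : lt c'' b' := by
      rcases tri b' c'' n2 with h | h
      · exact absurd (Or.inl ⟨e4, h⟩) k6
      · exact h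
    exact k7 (Or.inr ⟨e6, e3⟩)

/-- An ordering of the elements satisfying the constraints gives a comparability ordering. Here `g`
places the elements, and the copies are placed next to the elements. -/
theorem ordering_of_nb (hT : Ok us T) (g : U → ℤ) (hg : Set.InjOn g {x | x ∈ us})
    (h : ∀ t ∈ T, ¬ Btw (fun x y => g x < g y) t.1 t.2.1 t.2.2) :
    IsCompDigraph (arcV us T) := by
  -- the position of a label
  let B : ℤ := 3 * T.length + 4
  let org : Lab → U := fun x => match x with
    | Sum.inl u => u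
    | Sum.inr q => comp T q.1 q.2
  let off : Lab → ℤ := fun x => match x with
    | Sum.inl _ => 0
    | Sum.inr q => 1 + 3 * (q.1 : ℤ) + q.2
  let pos : Lab → ℤ := fun x => B * g (org x) + off x
  have hoff : ∀ x ∈ labs us T, 0 ≤ off x ∧ off x < B := by
    rintro (u | ⟨t, j⟩) hx
    · exact ⟨le_rfl, by simp only [B, off]; omega⟩
    · obtain ⟨h1, h2⟩ := mem_labs_inr.1 hx
      simp only [off, B]
      constructor <;> omega
  have horg : ∀ x ∈ labs us T, org x ∈ us := by
    rintro (u | ⟨t, j⟩) hx
    · exact mem_labs_inl.1 hx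
    · obtain ⟨h1, h2⟩ := mem_labs_inr.1 hx
      obtain ⟨c0, c1, c2⟩ := comp_get (T := T) h1
      obtain ⟨⟨i0, i1, i2⟩, -⟩ := hT _ (List.getElem_mem h1)
      have hj : j = 0 ∨ j = 1 ∨ j = 2 := by omega
      simp only [org]
      rcases hj with rfl | rfl | rfl
      · rw [c0]; exact i0
      · rw [c1]; exact i1
      · rw [c2]; exact i2
  have hlt : ∀ x ∈ labs us T, ∀ y ∈ labs us T, pos x < pos y → g (org x) ≤ g (org y) := by
    intro x hx y hy hxy
    by_contra hcon
    push Not at hcon
    have h1 := hoff x hx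
    have h2 := hoff y hy
    simp only [pos] at hxy
    have h3 : B * (g (org y) + 1) ≤ B * g (org x) := by
      refine mul_le_mul_of_nonneg_left (by omega) (by simp only [B]; omega)
    rw [mul_add, mul_one] at h3
    omega
  have hinj : ∀ x ∈ labs us T, ∀ y ∈ labs us T, pos x = pos y → x = y := by
    intro x hx y hy hxy
    have h1 := hoff x hx
    have h2 := hoff y hy
    have hBpos : 0 < B := by simp only [B]; omega
    have e1 : g (org x) = g (org y) := by
      have := congrArg (fun z => z / B) hxy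
      simp only [pos] at this
      rw [Int.add_comm, Int.add_mul_ediv_left _ _ (by omega),
        Int.add_comm (B * g (org y)), Int.add_mul_ediv_left _ _ (by omega),
        Int.ediv_eq_zero_of_lt h1.1 h1.2, Int.ediv_eq_zero_of_lt h2.1 h2.2] at this
      simpa using this
    have e2 : org x = org y := hg (horg x hx) (horg y hy) e1
    have e3 : off x = off y := by
      simp only [pos, e1] at hxy
      omega
    rcases x with u | ⟨t, j⟩ <;> rcases y with v | ⟨t', j'⟩
    · simp only [org] at e2
      rw [e2]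
    · simp only [off] at e3
      omega
    · simp only [off] at e3
      omega
    · obtain ⟨p1, p2⟩ := mem_labs_inr.1 hx
      obtain ⟨p3, p4⟩ := mem_labs_inr.1 hy
      simp only [off] at e3
      have : t = t' ∧ j = j' := by omega
      rw [this.1, this.2]
  refine ⟨fun x y => pos x.1 < pos y.1, ?_, ?_⟩
  · exact { trichotomous := fun x y h1 h2 => Subtype.ext (hinj x.1 x.2 y.1 y.2 (by omega))
            irrefl := fun x => lt_irrefl _
            trans := fun x y z => lt_trans }
  · rw [compOrdering_iff]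
    have hsame : ∀ x ∈ labs us T, ∀ y ∈ labs us T, ∀ z ∈ labs us T,
        ((pos x < pos y ∧ pos y < pos z) ∨ (pos z < pos y ∧ pos y < pos x)) →
        org x = org z → org y = org x := by
      intro x hx y hy z hz hb hxz
      rcases hb with ⟨h1, h2⟩ | ⟨h1, h2⟩
      · have a1 := hlt x hx y hy h1
        have a2 := hlt y hy z hz h2
        rw [← hxz] at a2
        exact hg (horg y hy) (horg x hx) (le_antisymm a2 a1)
      · have a1 := hlt z hz y hy h1
        have a2 := hlt y hy x hx h2
        rw [← hxz] at a1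
        exact hg (horg y hy) (horg x hx) (le_antisymm a2 a1)
    rintro ⟨a, ha⟩ ⟨b, hb⟩ ⟨c, hc⟩ hab hbc hac hbt
    have hbt' : (pos a < pos b ∧ pos b < pos c) ∨ (pos c < pos b ∧ pos b < pos a) := hbt
    have hne : a ≠ c := by
      rintro rfl
      rcases hbt' with ⟨h1, h2⟩ | ⟨h1, h2⟩ <;> omega
    unfold arcV at hab hbc hac
    simp only at hab hbc hac
    rcases c with w | ⟨t, j⟩
    · -- the head is an element, so all are elements
      rcases b with v | q
      · rcases a with u | p
        · simp only [arcL, Bool.not_eq_true', decide_eq_false_iff_not, not_not] at hac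
          exact hne (by rw [hac])
        · simp [arcL] at hab
      · simp [arcL] at hbc
    · rcases b with v | ⟨t', j'⟩
      · rcases a with u | p
        · simp only [arcL, Bool.not_eq_true', decide_eq_false_iff_not, not_not] at hac hbc hab
          -- `u` is the original of the head
          have := hsame _ ha _ hb _ hc hbt' (by simp only [org]; exact hac)
          simp only [org] at this
          exact hab this.symm
        · simp [arcL] at hab
      · simp only [arcL, Bool.and_eq_true, decide_eq_true_eq] at hbc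
        obtain ⟨rfl, rfl⟩ := hbc
        rcases a with u | ⟨t'', j''⟩
        · simp only [arcL, Bool.not_eq_true', decide_eq_false_iff_not, not_not] at hac hab
          have := hsame _ ha _ hb _ hc hbt' (by simp only [org]; exact hac)
          simp only [org] at this
          exact hab this.symm
        · simp only [arcL, Bool.and_eq_true, decide_eq_true_eq] at hab
          obtain ⟨rfl, rfl⟩ := hab
          -- the three copies of a constraint
          obtain ⟨p1, p2⟩ := mem_labs_inr.1 hc
          have hj : j'' = 0 := by omega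
          subst hj
          obtain ⟨c0, c1, c2⟩ := comp_get (T := T) p1
          obtain ⟨⟨i0, i1, i2⟩, d01, d02, d12⟩ := hT _ (List.getElem_mem p1)
          apply h _ (List.getElem_mem p1)
          have o1 : org (Sum.inr (t'', 0)) = T[t''].1 := c0
          have o2 : org (Sum.inr (t'', 0 + 1)) = T[t''].2.1 := c1
          have o3 : org (Sum.inr (t'', 0 + 1 + 1)) = T[t''].2.2 := c2
          have g1 : g T[t''].1 ≠ g T[t''].2.1 := fun h => d01 (hg i0 i1 h)
          have g2 : g T[t''].2.1 ≠ g T[t''].2.2 := fun h => d12 (hg i1 i2 h)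
          rcases hbt' with ⟨h1, h2⟩ | ⟨h1, h2⟩
          · left
            have a1 := hlt _ ha _ hb h1
            have a2 := hlt _ hb _ hc h2
            rw [o1, o2] at a1
            rw [o2, o3] at a2
            exact ⟨lt_of_le_of_ne a1 g1, lt_of_le_of_ne a2 g2⟩
          · right
            have a1 := hlt _ hc _ hb h1
            have a2 := hlt _ hb _ ha h2
            rw [o3, o2] at a1
            rw [o2, o1] at a2
            exact ⟨lt_of_le_of_ne a1 (Ne.symm g2), lt_of_le_of_ne a2 (Ne.symm g1)⟩

end Gadget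

end Pool.Agent.X248.CD
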