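import Pool.Agent.X248.CD.Sat
import Pool.Agent.X248.DP.Main
import Pool.Agent.X248.Cx
import Pool.Agent.H622R2.Base

/-!
# Comparability digraphs: NP-completeness of the recognition
-/

set_option autoImplicit false

namespace Pool.Agent.X248.CD

open Pool.Agent.NPC Pool.Agent.H622R2
open Pool.Agent.X248.DP (poly_entry)

attribute [local fun_prop] poly_entry

/-- The reduction. -/
def red (φ : List Cl) : List (List Bool) := mat (labs (usF φ) (TF φ)) (arcL (TF φ))

theorem arcL_irrefl (T : List (U × U × U)) (x : Lab) : arcL T x x = false := by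
  rcases x with u | ⟨t, j⟩
  · simp [arcL]
  · simp [arcL]

theorem arc_mat {α : Type} [DecidableEq α] (vs : List α) (f : α → α → Bool) (hnd : vs.Nodup)
    (hirr : ∀ x, f x x = false) : ∃ e : Fin (mat vs f).length ≃ {x // x ∈ vs},
      ∀ i j, arc (mat vs f) i j ↔ f (e i).1 (e j).1 = true := by
  refine ⟨(finCongr (mat_length vs f)).trans (List.Nodup.getEquiv _ hnd), ?_⟩
  intro i j
  have hi : i.1 < vs.length := lt_of_lt_of_eq i.2 (mat_length _ _)
  have hj : j.1 < vs.length := lt_of_lt_of_eq j.2 (mat_length _ _)
  have h1 : (((finCongr (mat_length vs f)).trans (List.Nodup.getEquiv _ hnd)) i).1 =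
    vs[i.1] := rfl
  have h2 : (((finCongr (mat_length vs f)).trans (List.Nodup.getEquiv _ hnd)) j).1 =
    vs[j.1] := rfl
  unfold arc
  rw [entry_mat _ _ _ _ hi hj, h1, h2]
  constructor
  · exact fun h => h.2
  · intro h
    refine ⟨?_, h⟩
    rintro rfl
    rw [hirr] at h
    exact absurd h (by simp)

theorem red_iff (φ : List Cl) :
    IsCompDigraph (arc (red φ)) ↔ IsCompDigraph (arcV (usF φ) (TF φ)) := by
  classical
  obtain ⟨e, he⟩ := arc_mat (labs (usF φ) (TF φ)) (arcL (TF φ)) (labs_nodup usF_nodup)
    (arcL_irrefl (TF φ))
  constructor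
  · exact isCompDigraph_of_equiv e he
  · refine isCompDigraph_of_equiv e.symm fun u v => ?_
    have := he (e.symm u) (e.symm v)
    rw [e.apply_symm_apply, e.apply_symm_apply] at this
    exact this.symm

section PolyTime

theorem poly_usF : Poly usF := by
  unfold usF
  have hr : Poly (fun φ : List Cl => List.range (3 * φ.length)) :=
    ((UPoly.const 3).mul (UPoly.length Poly.id)).range
  have hr2 : Poly (fun φ : List Cl => List.range φ.length) := Poly.range_length Poly.id
  fun_prop

theorem poly_TF : Poly TF := by
  unfold TF clT litU
  have hr : Poly (fun φ : List Cl => List.range (3 * φ.length)) :=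
    ((UPoly.const 3).mul (UPoly.length Poly.id)).range
  fun_prop

theorem poly_labs : Poly (fun p : List U × List (U × U × U) => labs p.1 p.2) := by
  unfold labs
  have hr : Poly (fun p : List U × List (U × U × U) => List.range p.2.length) :=
    Poly.range_length (by fun_prop)
  fun_prop

theorem arcL_eq (T : List (U × U × U)) (x y : Lab) : arcL T x y =
    Sum.elim (fun x => Sum.elim (fun y => !decide (x = y))
      (fun q => !decide (x = comp T q.1 q.2)) y)
      (fun p => Sum.elim (fun _ => false)
        (fun q => decide (p.1 = q.1) && decide (q.2 = p.2 + 1)) y) x := by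
  rcases x with e | p <;> rcases y with f | q <;> rfl

theorem poly_comp {α : Type} [TEnc α] {T : α → List (U × U × U)} {t j : α → ℕ} (hT : Poly T)
    (ht : Poly t) (hj : Poly j) : Poly (fun a => comp (T a) (t a) (j a)) := by
  unfold comp
  fun_prop

attribute [local fun_prop] poly_comp

theorem poly_arcL : Poly (fun p : (List (U × U × U) × Lab) × Lab => arcL p.1.1 p.1.2 p.2) := by
  simp only [arcL_eq]
  fun_prop

theorem poly_red : Poly red := by
  unfold red
  refine mat_poly (l := fun φ => labs (usF φ) (TF φ)) (adj := fun φ => arcL (TF φ)) ?_ ?_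
  · exact poly_labs.comp (Poly.pair poly_usF poly_TF)
  · exact poly_arcL.comp (f := fun p : (List Cl × Lab) × Lab => ((TF p.1.1, p.1.2), p.2))
      (Poly.pair (Poly.pair (poly_TF.comp (by fun_prop)) (by fun_prop)) (by fun_prop))

end PolyTime

/-- **Hardness.** -/
theorem hardI_comp : HardI (fun M : List (List Bool) => IsCompDigraph (arc M)) :=
  (hardPr_SAT3b.trans (Pr' := fun _ => True) poly_red (fun _ _ => trivial)
    (fun φ h => (comp_iff h.1 h.2.1).trans (red_iff φ).symm)).toHardI

/-! ### Membership -/

/-- The test of a list of positions. -/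
def ver (p : List (List Bool) × List ℕ) : Bool :=
  ((List.range p.1.length).all fun i => (List.range p.1.length).all fun j =>
    decide (i = j) || !decide (p.2.getD i 0 = p.2.getD j 0)) &&
  ((List.range p.1.length).all fun i => (List.range p.1.length).all fun j =>
    (List.range p.1.length).all fun k =>
      !(decide (p.2.getD i 0 < p.2.getD j 0) && decide (p.2.getD j 0 < p.2.getD k 0)) ||
      ((!(entry p.1 i j && entry p.1 j k) || entry p.1 i k) &&
        (!(entry p.1 k j && entry p.1 j i) || entry p.1 k i)))

theorem ver_poly : Poly ver := by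
  unfold ver
  have h1 : Poly (fun p : List (List Bool) × List ℕ => (List.range p.1.length).all fun i =>
      (List.range p.1.length).all fun j =>
        decide (i = j) || !decide (p.2.getD i 0 = p.2.getD j 0)) := by
    refine Poly.all (p := fun (p : List (List Bool) × List ℕ) i =>
      (List.range p.1.length).all fun j =>
        decide (i = j) || !decide (p.2.getD i 0 = p.2.getD j 0))
      (Poly.range_length (by fun_prop)) ?_
    exact Poly.all (p := fun (p : (List (List Bool) × List ℕ) × ℕ) j =>
      decide (p.2 = j) || !decide (p.1.2.getD p.2 0 = p.1.2.getD j 0))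
      (Poly.range_length (by fun_prop)) (by fun_prop)
  refine Poly.and h1 ?_
  refine Poly.all (p := fun (p : List (List Bool) × List ℕ) i =>
    (List.range p.1.length).all fun j => (List.range p.1.length).all fun k =>
      !(decide (p.2.getD i 0 < p.2.getD j 0) && decide (p.2.getD j 0 < p.2.getD k 0)) ||
      ((!(entry p.1 i j && entry p.1 j k) || entry p.1 i k) &&
        (!(entry p.1 k j && entry p.1 j i) || entry p.1 k i)))
    (Poly.range_length (by fun_prop)) ?_
  refine Poly.all (p := fun (p : (List (List Bool) × List ℕ) × ℕ) j =>
    (List.range p.1.1.length).all fun k =>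
      !(decide (p.1.2.getD p.2 0 < p.1.2.getD j 0) && decide (p.1.2.getD j 0 < p.1.2.getD k 0)) ||
      ((!(entry p.1.1 p.2 j && entry p.1.1 j k) || entry p.1.1 p.2 k) &&
        (!(entry p.1.1 k j && entry p.1.1 j p.2) || entry p.1.1 k p.2)))
    (Poly.range_length (by fun_prop)) ?_
  exact Poly.all (p := fun (p : ((List (List Bool) × List ℕ) × ℕ) × ℕ) k =>
      !(decide (p.1.1.2.getD p.1.2 0 < p.1.1.2.getD p.2 0) &&
        decide (p.1.1.2.getD p.2 0 < p.1.1.2.getD k 0)) ||
      ((!(entry p.1.1.1 p.1.2 p.2 && entry p.1.1.1 p.2 k) || entry p.1.1.1 p.1.2 k) &&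
        (!(entry p.1.1.1 k p.2 && entry p.1.1.1 p.2 p.1.2) || entry p.1.1.1 k p.1.2)))
    (Poly.range_length (by fun_prop)) (by fun_prop)

theorem mem_iff (M : List (List Bool)) : IsCompDigraph (arc M) ↔
    ∃ w : List ℕ, sz w ≤ (Polynomial.X * (Polynomial.C 4 * Polynomial.X + Polynomial.C 2) +
      Polynomial.C 1 : Polynomial ℕ).eval (sz M) ∧ ver (M, w) = true := by
  classical
  constructor
  · rintro ⟨lt, hlt, hc⟩
    let rk : Fin M.length → ℕ := fun i => (Finset.univ.filter fun j => lt j i).card
    have hmono : ∀ i j, lt i j → rk i < rk j := by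
      intro i j hij
      refine Finset.card_lt_card ?_
      rw [Finset.ssubset_iff_of_subset]
      · exact ⟨i, by simp [hij], by simp [hlt.irrefl i]⟩
      · intro k hk
        simp only [Finset.mem_filter, Finset.mem_univ, true_and] at hk ⊢
        exact hlt.trans _ _ _ hk hij
    have htri : ∀ i j, i ≠ j → lt i j ∨ lt j i := by
      intro i j hij
      by_contra hcon
      push Not at hcon
      exact hij (hlt.trichotomous _ _ hcon.1 hcon.2)
    have hiff : ∀ i j, rk i < rk j ↔ lt i j := by
      intro i j
      refine ⟨fun h => ?_, hmono i j⟩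
      by_cases hij : i = j
      · rw [hij] at h
        omega
      · rcases htri i j hij with h' | h'
        · exact h'
        · have := hmono _ _ h'
          omega
    have hlt' : ∀ i, rk i < M.length := by
      intro i
      have h1 : (Finset.univ.filter fun j => lt j i) ⊂ Finset.univ := by
        rw [Finset.ssubset_iff_of_subset (Finset.subset_univ _)]
        exact ⟨i, Finset.mem_univ _, by simp [hlt.irrefl i]⟩
      have := Finset.card_lt_card h1
      simpa using this
    have hget : ∀ i : Fin M.length, (List.ofFn rk).getD i.1 0 = rk i := by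
      intro i
      rw [List.getD_eq_getElem _ _ (by simp)]
      simp
    refine ⟨List.ofFn rk, ?_, ?_⟩
    · have h1 := sz_le_length_mul (List.ofFn rk) (4 * M.length + 1) (by
        intro a ha
        rw [List.mem_ofFn] at ha
        obtain ⟨i, rfl⟩ := ha
        have e1 := sz_nat_le (rk i)
        have e2 := NPC.Poly.size_le_self (rk i)
        have e3 := hlt' i
        omega)
      rw [List.length_ofFn] at h1
      have h2 := length_lt_sz M
      simp only [Polynomial.eval_add, Polynomial.eval_mul, Polynomial.eval_C, Polynomial.eval_X]
      have h3 : M.length * (4 * M.length + 1 + 1) ≤ sz M * (4 * sz M + 2) :=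
        Nat.mul_le_mul h2.le (by omega)
      omega
    · unfold ver
      simp only [Bool.and_eq_true, List.all_eq_true, List.mem_range, Bool.or_eq_true,
        decide_eq_true_eq, Bool.not_eq_true', decide_eq_false_iff_not, Bool.and_eq_false_iff]
      constructor
      · intro i hi j hj
        by_cases hij : i = j
        · exact Or.inl hij
        · right
          have e1 := hget ⟨i, hi⟩
          have e2 := hget ⟨j, hj⟩
          simp only at e1 e2
          rw [e1, e2]
          rcases htri ⟨i, hi⟩ ⟨j, hj⟩ (fun h => hij (congrArg Fin.val h)) with h | h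
          · have := hmono _ _ h
            omega
          · have := hmono _ _ h
            omega
      · intro i hi j hj k hk
        have e1 := hget ⟨i, hi⟩
        have e2 := hget ⟨j, hj⟩
        have e3 := hget ⟨k, hk⟩
        simp only at e1 e2 e3
        rw [e1, e2, e3]
        by_cases h1 : rk ⟨i, hi⟩ < rk ⟨j, hj⟩
        · by_cases h2 : rk ⟨j, hj⟩ < rk ⟨k, hk⟩
          · right
            have l1 := (hiff _ _).1 h1
            have l2 := (hiff _ _).1 h2
            have hh := hc _ _ _ l1 l2
            have n1 : (⟨i, hi⟩ : Fin M.length) ≠ ⟨j, hj⟩ := by rintro h; rw [h] at h1; omega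
            have n2 : (⟨j, hj⟩ : Fin M.length) ≠ ⟨k, hk⟩ := by rintro h; rw [h] at h2; omega
            constructor
            · by_cases h3 : entry M i j = true
              · by_cases h4 : entry M j k = true
                · exact Or.inr (hh.1 ⟨n1, h3⟩ ⟨n2, h4⟩).2
                · exact Or.inl (Or.inr (by simpa using h4))
              · exact Or.inl (Or.inl (by simpa using h3))
            · by_cases h3 : entry M k j = true
              · by_cases h4 : entry M j i = true
                · exact Or.inr (hh.2 ⟨n2.symm, h3⟩ ⟨n1.symm, h4⟩).2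
                · exact Or.inl (Or.inr (by simpa using h4))
              · exact Or.inl (Or.inl (by simpa using h3))
          · exact Or.inl (Or.inr h2)
        · exact Or.inl (Or.inl h1)
  · rintro ⟨w, -, hw⟩
    unfold ver at hw
    simp only [Bool.and_eq_true, List.all_eq_true, List.mem_range, Bool.or_eq_true,
        decide_eq_true_eq, Bool.not_eq_true', decide_eq_false_iff_not, Bool.and_eq_false_iff] at hw
    obtain ⟨h1, h2⟩ := hw
    refine ⟨fun i j => w.getD i.1 0 < w.getD j.1 0, ?_, ?_⟩
    · exact { trichotomous := fun i j h3 h4 => by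
                rcases h1 i i.2 j j.2 with h | h
                · exact Fin.ext h
                · exact absurd (by omega) h
              irrefl := fun x => lt_irrefl _
              trans := fun x y z => lt_trans }
    · intro i j k hij hjk
      rcases h2 i i.2 j j.2 k k.2 with (h | h) | ⟨h3, h4⟩
      · exact absurd hij h
      · exact absurd hjk h
      · have n1 : i ≠ k := by
          rintro rfl
          have : w.getD i.1 0 < w.getD i.1 0 := lt_trans hij hjk
          exact lt_irrefl _ this
        constructor
        · rintro ⟨_, a1⟩ ⟨_, a2⟩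
          rcases h3 with (h | h) | h
          · rw [a1] at h; exact absurd h (by simp)
          · rw [a2] at h; exact absurd h (by simp)
          · exact ⟨n1, h⟩
        · rintro ⟨_, a1⟩ ⟨_, a2⟩
          rcases h4 with (h | h) | h
          · rw [a1] at h; exact absurd h (by simp)
          · rw [a2] at h; exact absurd h (by simp)
          · exact ⟨n1.symm, h⟩

theorem inNP : InNPP (fun M : List (List Bool) => IsCompDigraph (arc M)) :=
  inNPP_of ver_poly _ mem_iff

end Pool.Agent.X248.CD
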