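import Pool.Agent.X248.CD.Gadget
import Pool.Agent.NPC.Sat2

/-!
# Comparability digraphs: the constraints of a formula
-/

set_option autoImplicit false

namespace Pool.Agent.X248.CD

open Pool.Agent.NPC

/-- Clauses. -/
abbrev Cl := (Bool × ℕ) × (Bool × ℕ) × (Bool × ℕ)

/-- The element of a literal. -/
def litU (l : Bool × ℕ) : U := (if l.1 then 2 else 3, l.2)

/-- The elements. -/
def usF (φ : List Cl) : List U :=
  [(0, 0), (1, 0)] ++ ((List.range (3 * φ.length)).flatMap fun i => [(2, i), (3, i)]) ++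
    (List.range φ.length).flatMap fun c => [(4, c), (5, c)]

/-- The constraints of a clause. -/
def clT (cl : Cl) (c : ℕ) : List (U × U × U) :=
  [((4, c), litU cl.1, litU cl.2.1), ((4, c), litU cl.2.1, litU cl.1),
    ((5, c), litU cl.2.2, (1, 0)), ((5, c), (1, 0), litU cl.2.2),
    ((0, 0), (4, c), (5, c)), ((0, 0), (5, c), (4, c))]

/-- The constraints. -/
def TF (φ : List Cl) : List (U × U × U) :=
  ((List.range (3 * φ.length)).flatMap fun i =>
    [((0, 0), (2, i), (3, i)), ((0, 0), (3, i), (2, i))]) ++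
  φ.zipIdx.flatMap fun p => clT p.1 p.2

variable {φ : List Cl}

theorem mem_usF {x : U} : x ∈ usF φ ↔ x = (0, 0) ∨ x = (1, 0) ∨
    ((x.1 = 2 ∨ x.1 = 3) ∧ x.2 < 3 * φ.length) ∨ ((x.1 = 4 ∨ x.1 = 5) ∧ x.2 < φ.length) := by
  obtain ⟨k, i⟩ := x
  unfold usF
  simp only [List.mem_append, List.mem_cons, List.not_mem_nil, or_false, List.mem_flatMap,
    List.mem_range, Prod.mk.injEq]
  constructor
  · rintro ((h | ⟨j, hj, h⟩) | ⟨j, hj, h⟩)
    · tauto
    · right; right; left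
      constructor
      · tauto
      · omega
    · right; right; right
      constructor
      · tauto
      · omega
  · rintro (h | h | ⟨h, hi⟩ | ⟨h, hi⟩)
    · exact Or.inl (Or.inl (Or.inl h))
    · exact Or.inl (Or.inl (Or.inr h))
    · exact Or.inl (Or.inr ⟨i, hi, by tauto⟩)
    · exact Or.inr ⟨i, hi, by tauto⟩

theorem usF_nodup : (usF φ).Nodup := by
  unfold usF
  rw [List.nodup_append, List.nodup_append]
  refine ⟨⟨by simp, ?_, ?_⟩, ?_, ?_⟩
  · rw [List.nodup_flatMap]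
    refine ⟨fun t _ => by simp, ?_⟩
    refine (List.nodup_range (n := 3 * φ.length)).imp ?_
    intro a b hab x hx hy
    simp only [List.mem_cons, List.not_mem_nil, or_false] at hx hy
    rcases hx with h | h <;> subst h <;> simp [hab] at hy
  · intro x hx y hy hxy
    subst hxy
    simp only [List.mem_cons, List.not_mem_nil, or_false, List.mem_flatMap] at hx hy
    obtain ⟨i, _, hy⟩ := hy
    rcases hx with rfl | rfl <;> simp at hy
  · rw [List.nodup_flatMap]
    refine ⟨fun t _ => by simp, ?_⟩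
    refine (List.nodup_range (n := φ.length)).imp ?_
    intro a b hab x hx hy
    simp only [List.mem_cons, List.not_mem_nil, or_false] at hx hy
    rcases hx with h | h <;> subst h <;> simp [hab] at hy
  · intro x hx y hy hxy
    subst hxy
    simp only [List.mem_append, List.mem_cons, List.not_mem_nil, or_false, List.mem_flatMap]
      at hx hy
    obtain ⟨i, _, hy⟩ := hy
    rcases hx with (rfl | rfl) | ⟨j, _, rfl | rfl⟩ <;> simp at hy

theorem litU_mem {l : Bool × ℕ} (h : l.2 < 3 * φ.length) : litU l ∈ usF φ := by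
  rw [mem_usF]
  right; right; left
  unfold litU
  refine ⟨?_, h⟩
  cases l.1 <;> simp

theorem litU_ne {l m : Bool × ℕ} (h : l.2 ≠ m.2) : litU l ≠ litU m := fun h' =>
  h (congrArg (fun x : U => x.2) h')

theorem litU_fst (l : Bool × ℕ) : (litU l).1 = 2 ∨ (litU l).1 = 3 := by
  unfold litU
  cases l.1 <;> simp

theorem mem_TF {t : U × U × U} : t ∈ TF φ ↔
    (∃ i < 3 * φ.length, t = ((0, 0), (2, i), (3, i)) ∨ t = ((0, 0), (3, i), (2, i))) ∨
    ∃ c cl, φ[c]? = some cl ∧ t ∈ clT cl c := by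
  unfold TF
  simp only [List.mem_append, List.mem_flatMap, List.mem_range, List.mem_cons, List.not_mem_nil,
    or_false]
  refine or_congr Iff.rfl ?_
  constructor
  · rintro ⟨⟨cl, c⟩, h, ht⟩
    exact ⟨c, cl, List.mem_zipIdx_iff_getElem?.1 h, ht⟩
  · rintro ⟨c, cl, h, ht⟩
    exact ⟨(cl, c), List.mem_zipIdx_iff_getElem?.2 h, ht⟩

theorem TF_ok (hd : Distinct3 φ) (hb : Bounded3 φ) : Ok (usF φ) (TF φ) := by
  intro t ht
  rw [mem_TF] at ht
  have hX : ((0, 0) : U) ∈ usF φ := by simp [mem_usF]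
  have hF : ((1, 0) : U) ∈ usF φ := by simp [mem_usF]
  rcases ht with ⟨i, hi, rfl | rfl⟩ | ⟨c, cl, hc, ht⟩
  · exact ⟨⟨hX, by simp [mem_usF, hi], by simp [mem_usF, hi]⟩, by simp, by simp, by simp⟩
  · exact ⟨⟨hX, by simp [mem_usF, hi], by simp [mem_usF, hi]⟩, by simp, by simp, by simp⟩
  · have hcl := List.mem_of_getElem? hc
    have hlt : c < φ.length := (List.getElem?_eq_some_iff.1 hc).1
    obtain ⟨b1, b2, b3⟩ := hb _ hcl
    obtain ⟨d1, d2, d3⟩ := hd _ hcl
    have m1 := litU_mem b1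
    have m2 := litU_mem b2
    have m3 := litU_mem b3
    have mY : ((4, c) : U) ∈ usF φ := by simp [mem_usF, hlt]
    have mZ : ((5, c) : U) ∈ usF φ := by simp [mem_usF, hlt]
    have nY : ∀ l : Bool × ℕ, ((4, c) : U) ≠ litU l := by
      intro l h
      rcases litU_fst l with h' | h' <;> rw [← h] at h' <;> simp at h'
    have nZ : ∀ l : Bool × ℕ, ((5, c) : U) ≠ litU l := by
      intro l h
      rcases litU_fst l with h' | h' <;> rw [← h] at h' <;> simp at h'
    have nF : ∀ l : Bool × ℕ, ((1, 0) : U) ≠ litU l := by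
      intro l h
      rcases litU_fst l with h' | h' <;> rw [← h] at h' <;> simp at h'
    simp only [clT, List.mem_cons, List.not_mem_nil, or_false] at ht
    rcases ht with rfl | rfl | rfl | rfl | rfl | rfl
    · exact ⟨⟨mY, m1, m2⟩, nY _, nY _, litU_ne d1⟩
    · exact ⟨⟨mY, m2, m1⟩, nY _, nY _, litU_ne d1.symm⟩
    · exact ⟨⟨mZ, m3, hF⟩, nZ _, by simp, (nF _).symm⟩
    · exact ⟨⟨mZ, hF, m3⟩, by simp, nZ _, nF _⟩
    · exact ⟨⟨hX, mY, mZ⟩, by simp, by simp, by simp⟩
    · exact ⟨⟨hX, mZ, mY⟩, by simp, by simp, by simp⟩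

/-! ### From a comparability ordering to an assignment -/

theorem btw_of_not {V : Type} {lt : V → V → Prop} (hlt : IsStrictTotalOrder V lt) {m a b : V}
    (h1 : ¬ Btw lt m a b) (h2 : ¬ Btw lt m b a) (ma : m ≠ a) (mb : m ≠ b) (ab : a ≠ b) :
    (lt m a ↔ ¬ lt m b) := by
  have tri : ∀ x y : V, x ≠ y → lt x y ∨ lt y x := by
    intro x y hxy
    by_contra hcon
    push Not at hcon
    exact hxy (hlt.trichotomous _ _ hcon.1 hcon.2)
  unfold Btw at h1 h2
  constructor
  · intro h3 h4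
    rcases tri a b ab with h | h
    · exact h1 (Or.inl ⟨h3, h⟩)
    · exact h2 (Or.inl ⟨h4, h⟩)
  · intro h3
    rcases tri m a ma with h | h
    · exact h
    · exfalso
      have h4 : lt b m := by
        rcases tri m b mb with h' | h'
        · exact absurd h' h3
        · exact h'
      rcases tri a b ab with h' | h'
      · exact h2 (Or.inr ⟨h', h4⟩)
      · exact h1 (Or.inr ⟨h', h⟩)

theorem side_of_not {V : Type} {lt : V → V → Prop} (hlt : IsStrictTotalOrder V lt) {x m a b : V}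
    (h1 : ¬ Btw lt m a b) (h2 : ¬ Btw lt m b a) (ma : m ≠ a) (mb : m ≠ b) (ab : a ≠ b)
    (xm : x ≠ m) (hab : lt x a ↔ lt x b) : (lt x m ↔ lt x a) := by
  have tri : ∀ x y : V, x ≠ y → lt x y ∨ lt y x := by
    intro x y hxy
    by_contra hcon
    push Not at hcon
    exact hxy (hlt.trichotomous _ _ hcon.1 hcon.2)
  have h3 := btw_of_not hlt h1 h2 ma mb ab
  constructor
  · intro hm
    by_cases h4 : lt m a
    · exact hlt.trans _ _ _ hm h4
    · have h5 : lt m b := by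
        by_contra h6
        exact h4 (h3.2 h6)
      exact hab.2 (hlt.trans _ _ _ hm h5)
  · intro ha
    have hb := hab.1 ha
    by_cases h4 : lt m a
    · have h5 : ¬ lt m b := h3.1 h4
      have h6 : lt b m := by
        rcases tri m b mb with h' | h'
        · exact absurd h' h5
        · exact h'
      exact hlt.trans _ _ _ hb h6
    · have h6 : lt a m := by
        rcases tri m a ma with h' | h'
        · exact absurd h' h4
        · exact h'
      exact hlt.trans _ _ _ ha h6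

theorem sat_of_comp (hd : Distinct3 φ) (hb : Bounded3 φ)
    (h : IsCompDigraph (arcV (usF φ) (TF φ))) : SAT3 φ := by
  classical
  obtain ⟨lt, hlt, hc⟩ := h
  have hok := TF_ok hd hb
  -- the constraints, for elements
  have hmem : ∀ x ∈ usF φ, (Sum.inl x : Lab) ∈ labs (usF φ) (TF φ) := fun x hx =>
    mem_labs_inl.2 hx
  have key : ∀ x y z : U, (x, y, z) ∈ TF φ → ∀ (hx : (Sum.inl x : Lab) ∈ labs (usF φ) (TF φ))
      (hy : (Sum.inl y : Lab) ∈ labs (usF φ) (TF φ))
      (hz : (Sum.inl z : Lab) ∈ labs (usF φ) (TF φ)), ¬ Btw lt ⟨_, hx⟩ ⟨_, hy⟩ ⟨_, hz⟩ := by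
    intro x y z ht
    obtain ⟨t, ht', he⟩ := List.getElem_of_mem ht
    have e1 : (TF φ)[t].1 = x := by rw [he]
    have e2 : (TF φ)[t].2.1 = y := by rw [he]
    have e3 : (TF φ)[t].2.2 = z := by rw [he]
    subst e1 e2 e3
    intro hx hy hz
    exact nb_of_ordering hok hlt hc ht' hx hy hz
  have hX : ((0, 0) : U) ∈ usF φ := by simp [mem_usF]
  have hF : ((1, 0) : U) ∈ usF φ := by simp [mem_usF]
  -- the sides
  let R : U → Prop := fun x => ∃ hx : x ∈ usF φ,
    lt ⟨Sum.inl (0, 0), hmem _ hX⟩ ⟨Sum.inl x, hmem x hx⟩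
  have hR : ∀ x (hx : x ∈ usF φ), R x ↔
      lt ⟨Sum.inl (0, 0), hmem _ hX⟩ ⟨Sum.inl x, hmem x hx⟩ := fun x hx =>
    ⟨fun ⟨_, h⟩ => h, fun h => ⟨hx, h⟩⟩
  have ne : ∀ {x y : U} (hx : x ∈ usF φ) (hy : y ∈ usF φ), x ≠ y →
      (⟨Sum.inl x, hmem x hx⟩ : {x // x ∈ labs (usF φ) (TF φ)}) ≠ ⟨Sum.inl y, hmem y hy⟩ := by
    intro x y hx hy hxy h
    exact hxy (by simpa using congrArg Subtype.val h)
  -- opposite literals
  have hopp : ∀ i, i < 3 * φ.length → (R (2, i) ↔ ¬ R (3, i)) := by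
    intro i hi
    have h2 : ((2, i) : U) ∈ usF φ := by simp [mem_usF, hi]
    have h3 : ((3, i) : U) ∈ usF φ := by simp [mem_usF, hi]
    rw [hR _ h2, hR _ h3]
    refine btw_of_not hlt ?_ ?_ (ne hX h2 (by simp)) (ne hX h3 (by simp)) (ne h2 h3 (by simp))
    · exact key _ _ _ (mem_TF.2 (Or.inl ⟨i, hi, Or.inl rfl⟩)) _ _ _
    · exact key _ _ _ (mem_TF.2 (Or.inl ⟨i, hi, Or.inr rfl⟩)) _ _ _
  have hlit : ∀ l : Bool × ℕ, l.2 < 3 * φ.length →
      (R (litU l) ↔ (l.1 = true ↔ R (2, l.2))) := by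
    rintro ⟨b, i⟩ hi
    cases b
    · simp only [litU, Bool.false_eq_true, if_false, false_iff]
      rw [hopp i hi, not_not]
    · simp [litU]
  refine ⟨fun i => decide (R (2, i) ↔ ¬ R (1, 0)), fun cl hcl => ?_⟩
  obtain ⟨c, hc1, rfl⟩ := List.getElem_of_mem hcl
  obtain ⟨b1, b2, b3⟩ := hb _ (List.getElem_mem hc1)
  obtain ⟨d1, d2, d3⟩ := hd _ (List.getElem_mem hc1)
  have hval : ∀ l : Bool × ℕ, l.2 < 3 * φ.length →
      decide (R (2, l.2) ↔ ¬ R (1, 0)) ≠ l.1 → (R (litU l) ↔ R (1, 0)) := by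
    rintro ⟨b, i⟩ hi hne
    rw [hlit _ hi]
    cases b
    · simp only [ne_eq, Bool.not_eq_false, decide_eq_true_eq] at hne
      simp only [Bool.false_eq_true, false_iff]
      tauto
    · simp only [ne_eq, Bool.not_eq_true, decide_eq_false_iff_not] at hne
      simp only [true_iff]
      tauto
  by_contra hcon
  push Not at hcon
  obtain ⟨n1, n2, n3⟩ := hcon
  have r1 := hval _ b1 n1
  have r2 := hval _ b2 n2
  have r3 := hval _ b3 n3
  have hget : φ[c]? = some φ[c] := List.getElem?_eq_getElem hc1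
  have m1 := litU_mem b1
  have m2 := litU_mem b2
  have m3 := litU_mem b3
  have mY : ((4, c) : U) ∈ usF φ := by simp [mem_usF, hc1]
  have mZ : ((5, c) : U) ∈ usF φ := by simp [mem_usF, hc1]
  have nY : ∀ l : Bool × ℕ, ((4, c) : U) ≠ litU l := by
    intro l h
    rcases litU_fst l with h' | h' <;> rw [← h] at h' <;> simp at h'
  have nZ : ∀ l : Bool × ℕ, ((5, c) : U) ≠ litU l := by
    intro l h
    rcases litU_fst l with h' | h' <;> rw [← h] at h' <;> simp at h'
  have nF : ∀ l : Bool × ℕ, ((1, 0) : U) ≠ litU l := by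
    intro l h
    rcases litU_fst l with h' | h' <;> rw [← h] at h' <;> simp at h'
  have hin : ∀ t ∈ clT φ[c] c, t ∈ TF φ := fun t ht => mem_TF.2 (Or.inr ⟨c, _, hget, ht⟩)
  have eY : R (4, c) ↔ R (1, 0) := by
    have h1 := side_of_not (x := (⟨Sum.inl (0, 0), hmem _ hX⟩ : {x // x ∈ labs (usF φ) (TF φ)}))
      hlt (key _ _ _ (hin ((4, c), litU φ[c].1, litU φ[c].2.1) (by simp [clT])) (hmem _ mY)
        (hmem _ m1) (hmem _ m2))
      (key _ _ _ (hin ((4, c), litU φ[c].2.1, litU φ[c].1) (by simp [clT])) _ _ _)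
      (ne mY m1 (nY _)) (ne mY m2 (nY _)) (ne m1 m2 (litU_ne d1)) (ne hX mY (by simp))
      (by rw [← hR _ m1, ← hR _ m2, r1, r2])
    rw [← hR _ mY, ← hR _ m1] at h1
    exact h1.trans r1
  have eZ : R (5, c) ↔ R (1, 0) := by
    have h1 := side_of_not (x := (⟨Sum.inl (0, 0), hmem _ hX⟩ : {x // x ∈ labs (usF φ) (TF φ)}))
      hlt (key _ _ _ (hin ((5, c), litU φ[c].2.2, (1, 0)) (by simp [clT])) (hmem _ mZ)
        (hmem _ m3) (hmem _ hF))
      (key _ _ _ (hin ((5, c), (1, 0), litU φ[c].2.2) (by simp [clT])) _ _ _)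
      (ne mZ m3 (nZ _)) (ne mZ hF (by simp)) (ne m3 hF (nF _).symm) (ne hX mZ (by simp))
      (by rw [← hR _ m3, ← hR _ hF, r3])
    rw [← hR _ mZ, ← hR _ m3] at h1
    exact h1.trans r3
  have eYZ : R (4, c) ↔ ¬ R (5, c) := by
    rw [hR _ mY, hR _ mZ]
    refine btw_of_not hlt ?_ ?_ (ne hX mY (by simp)) (ne hX mZ (by simp)) (ne mY mZ (by simp))
    · exact key _ _ _ (hin _ (by simp [clT])) _ _ _
    · exact key _ _ _ (hin _ (by simp [clT])) _ _ _
  rw [eY, eZ] at eYZ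
  by_cases hh : R (1, 0)
  · exact eYZ.1 hh hh
  · exact hh (eYZ.2 hh)

/-! ### From an assignment to an ordering -/

/-- The rough position of an element. -/
def fpos (φ : List Cl) (τ : ℕ → Bool) (x : U) : ℤ :=
  if x.1 = 0 then 0 else if x.1 = 1 then -2
  else if x.1 = 2 then (if τ x.2 then 2 * x.2 + 4 else -(2 * x.2 + 4))
  else if x.1 = 3 then (if τ x.2 then -(2 * x.2 + 4) else 2 * x.2 + 4)
  else
    (φ[x.2]?).elim 0 fun cl =>
      if x.1 = 4 then
        (if τ cl.1.2 = cl.1.1 ∧ τ cl.2.1.2 = cl.2.1.1 then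
          (min (2 * (cl.1.2 : ℤ) + 4) (2 * (cl.2.1.2 : ℤ) + 4)) + 1
        else if τ cl.1.2 ≠ cl.1.1 ∧ τ cl.2.1.2 ≠ cl.2.1.1 then
          -((min (2 * (cl.1.2 : ℤ) + 4) (2 * (cl.2.1.2 : ℤ) + 4)) + 1)
        else 1)
      else
        (if τ cl.2.2.2 = cl.2.2.1 then
          (if τ cl.1.2 = cl.1.1 ∨ τ cl.2.1.2 = cl.2.1.1 then -1 else 1) else -3)

theorem fpos_lit (τ : ℕ → Bool) (l : Bool × ℕ) :
    fpos φ τ (litU l) = if τ l.2 = l.1 then 2 * (l.2 : ℤ) + 4 else -(2 * (l.2 : ℤ) + 4) := by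
  obtain ⟨b, i⟩ := l
  unfold fpos litU
  cases b <;> cases h : τ i <;> simp [h]

theorem comp_of_sat (hd : Distinct3 φ) (hb : Bounded3 φ) (h : SAT3 φ) :
    IsCompDigraph (arcV (usF φ) (TF φ)) := by
  obtain ⟨τ, hτ⟩ := h
  let K : ℤ := 18 * φ.length + 30
  let code : U → ℤ := fun x => 6 * (x.2 : ℤ) + x.1
  let g : U → ℤ := fun x => K * fpos φ τ x + code x
  have hcode : ∀ x ∈ usF φ, 0 ≤ code x ∧ code x < K ∧ x.1 < 6 := by
    intro x hx
    rw [mem_usF] at hx
    simp only [code, K]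
    rcases hx with rfl | rfl | ⟨h1, h2⟩ | ⟨h1, h2⟩
    · simp; omega
    · simp; omega
    · refine ⟨by omega, by omega, by omega⟩
    · refine ⟨by omega, by omega, by omega⟩
  have hK : 0 < K := by simp only [K]; omega
  have hlt : ∀ x ∈ usF φ, ∀ y ∈ usF φ, fpos φ τ x < fpos φ τ y → g x < g y := by
    intro x hx y hy hxy
    have h1 := hcode x hx
    have h2 := hcode y hy
    simp only [g]
    have h3 : K * (fpos φ τ x + 1) ≤ K * fpos φ τ y :=
      mul_le_mul_of_nonneg_left (by omega) hK.le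
    rw [mul_add, mul_one] at h3
    omega
  have hinj : Set.InjOn g {x | x ∈ usF φ} := by
    intro x hx y hy hxy
    have h1 := hcode x hx
    have h2 := hcode y hy
    have e1 : fpos φ τ x = fpos φ τ y := by
      by_contra hne
      rcases lt_or_gt_of_ne hne with h | h
      · have := hlt x hx y hy h; omega
      · have := hlt y hy x hx h; omega
    have e2 : code x = code y := by
      simp only [g, e1] at hxy
      omega
    simp only [code] at e2
    exact Prod.ext (by omega) (by omega)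
  refine ordering_of_nb (TF_ok hd hb) g hinj ?_
  -- betweenness of the rough positions
  have hbt : ∀ m a b : U, m ∈ usF φ → a ∈ usF φ → b ∈ usF φ →
      ((fpos φ τ a < fpos φ τ m ∧ fpos φ τ m < fpos φ τ b) ∨
        (fpos φ τ b < fpos φ τ m ∧ fpos φ τ m < fpos φ τ a)) →
      ¬ Btw (fun x y => g x < g y) m a b := by
    intro m a b hm ha hb h
    unfold Btw
    rcases h with ⟨h1, h2⟩ | ⟨h1, h2⟩
    · have a1 := hlt _ ha _ hm h1
      have a2 := hlt _ hm _ hb h2
      omega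
    · have a1 := hlt _ hb _ hm h1
      have a2 := hlt _ hm _ ha h2
      omega
  have hX : ((0, 0) : U) ∈ usF φ := by simp [mem_usF]
  have hF : ((1, 0) : U) ∈ usF φ := by simp [mem_usF]
  have f0 : fpos φ τ (0, 0) = 0 := by simp [fpos]
  have f1 : fpos φ τ (1, 0) = -2 := by simp [fpos]
  intro t ht
  rw [mem_TF] at ht
  rcases ht with ⟨i, hi, ht⟩ | ⟨c, cl, hc, ht⟩
  · have h2 : ((2, i) : U) ∈ usF φ := by simp [mem_usF, hi]
    have h3 : ((3, i) : U) ∈ usF φ := by simp [mem_usF, hi]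
    have f2 : fpos φ τ (2, i) = if τ i then 2 * (i : ℤ) + 4 else -(2 * (i : ℤ) + 4) := by
      simp [fpos]
    have f3 : fpos φ τ (3, i) = if τ i then -(2 * (i : ℤ) + 4) else 2 * (i : ℤ) + 4 := by
      simp [fpos]
    rcases ht with rfl | rfl
    · refine hbt _ _ _ hX h2 h3 ?_
      simp only
      rw [f0, f2, f3]
      cases τ i <;> simp <;> omega
    · refine hbt _ _ _ hX h3 h2 ?_
      simp only
      rw [f0, f2, f3]
      cases τ i <;> simp <;> omega
  · have hcl := List.mem_of_getElem? hc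
    have hclt : c < φ.length := (List.getElem?_eq_some_iff.1 hc).1
    obtain ⟨b1, b2, b3⟩ := hb _ hcl
    obtain ⟨d1, d2, d3⟩ := hd _ hcl
    have m1 := litU_mem b1
    have m2 := litU_mem b2
    have m3 := litU_mem b3
    have mY : ((4, c) : U) ∈ usF φ := by simp [mem_usF, hclt]
    have mZ : ((5, c) : U) ∈ usF φ := by simp [mem_usF, hclt]
    have g1 := fpos_lit (φ := φ) τ cl.1
    have g2 := fpos_lit (φ := φ) τ cl.2.1
    have g3 := fpos_lit (φ := φ) τ cl.2.2
    have gY : fpos φ τ (4, c) =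
        (if τ cl.1.2 = cl.1.1 ∧ τ cl.2.1.2 = cl.2.1.1 then
          (min (2 * (cl.1.2 : ℤ) + 4) (2 * (cl.2.1.2 : ℤ) + 4)) + 1
        else if τ cl.1.2 ≠ cl.1.1 ∧ τ cl.2.1.2 ≠ cl.2.1.1 then
          -((min (2 * (cl.1.2 : ℤ) + 4) (2 * (cl.2.1.2 : ℤ) + 4)) + 1)
        else 1) := by
      simp [fpos, hc]
    have gZ : fpos φ τ (5, c) =
        (if τ cl.2.2.2 = cl.2.2.1 then
          (if τ cl.1.2 = cl.1.1 ∨ τ cl.2.1.2 = cl.2.1.1 then -1 else 1) else -3) := by
      simp [fpos, hc]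
    have hsat := hτ cl hcl
    have hYm : (fpos φ τ (litU cl.1) < fpos φ τ (4, c) ∧ fpos φ τ (4, c) < fpos φ τ (litU cl.2.1)) ∨
        (fpos φ τ (litU cl.2.1) < fpos φ τ (4, c) ∧ fpos φ τ (4, c) < fpos φ τ (litU cl.1)) := by
      rw [g1, g2, gY]
      by_cases v1 : τ cl.1.2 = cl.1.1 <;> by_cases v2 : τ cl.2.1.2 = cl.2.1.1 <;>
        simp only [v1, v2, and_self, and_true, and_false, if_true, if_false, ne_eq,
          not_true_eq_false, not_false_eq_true] <;> omega
    have hZm : (fpos φ τ (litU cl.2.2) < fpos φ τ (5, c) ∧ fpos φ τ (5, c) < fpos φ τ (1, 0)) ∨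
        (fpos φ τ (1, 0) < fpos φ τ (5, c) ∧ fpos φ τ (5, c) < fpos φ τ (litU cl.2.2)) := by
      rw [g3, gZ, f1]
      by_cases v1 : τ cl.1.2 = cl.1.1 ∨ τ cl.2.1.2 = cl.2.1.1 <;>
        by_cases v3 : τ cl.2.2.2 = cl.2.2.1 <;>
        simp only [v1, v3, if_true, if_false] <;> omega
    have hXm : (fpos φ τ (4, c) < fpos φ τ (0, 0) ∧ fpos φ τ (0, 0) < fpos φ τ (5, c)) ∨
        (fpos φ τ (5, c) < fpos φ τ (0, 0) ∧ fpos φ τ (0, 0) < fpos φ τ (4, c)) := by
      rw [gY, gZ, f0]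
      by_cases v1 : τ cl.1.2 = cl.1.1 <;> by_cases v2 : τ cl.2.1.2 = cl.2.1.1 <;>
        by_cases v3 : τ cl.2.2.2 = cl.2.2.1 <;>
        simp only [v1, v2, v3, and_self, and_true, and_false, or_self, or_true, or_false,
          if_true, if_false, ne_eq,
          not_true_eq_false, not_false_eq_true] <;>
        first
        | omega
        | (simp [v1, v2, v3] at hsat)
    simp only [clT, List.mem_cons, List.not_mem_nil, or_false] at ht
    rcases ht with rfl | rfl | rfl | rfl | rfl | rfl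
    · exact hbt _ _ _ mY m1 m2 hYm
    · exact hbt _ _ _ mY m2 m1 hYm.symm
    · exact hbt _ _ _ mZ m3 hF hZm
    · exact hbt _ _ _ mZ hF m3 hZm.symm
    · exact hbt _ _ _ hX mY mZ hXm
    · exact hbt _ _ _ hX mZ mY hXm.symm

/-- **Correctness.** -/
theorem comp_iff (hd : Distinct3 φ) (hb : Bounded3 φ) :
    SAT3 φ ↔ IsCompDigraph (arcV (usF φ) (TF φ)) :=
  ⟨comp_of_sat hd hb, sat_of_comp hd hb⟩

end Pool.Agent.X248.CD
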